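import Mathlib
import Pool.Agent.R716.SP.Ex1
import Pool.Agent.R716.SP.Ex2

/-!
# MP_718c62_al, Q1: the answer is no, for both values `k-2` and `k-1`

`monIdeal K A` is the ideal of `K[x_1,...,x_n]` generated by the monomials with exponents in `A`;
when `A` is an antichain these are its minimal monomial generators.

* for every `r` the ideal `(x_1,x_2) ∩ (y_1,y_2,y_3) + (z_1,...,z_r)` has `k = 6 + r` minimal
  generators, `pdim S/I = k - 2` and `spdim S/I = k - 3`;
* the ideal generated by the products of the rows and of the columns of a `3 × 3` matrix of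
  variables has `k = 6` minimal generators, `pdim S/I = 5 = k - 1` and `spdim S/I = 4`.

Both hold over every field.
-/

set_option autoImplicit false

namespace Pool.Agent.Results.MP_718c62_al.SpdimNePdim

open MvPolynomial CategoryTheory Pool.Agent.R716.SP

theorem result (K : Type) [Field K] :
    (∀ r : ℕ, ∃ A : Finset (Fin (5 + r) →₀ ℕ), IsAntichain (· ≤ ·) (A : Set (Fin (5 + r) →₀ ℕ)) ∧
      A.card = 6 + r ∧ monIdeal K A ≠ ⊥ ∧ monIdeal K A ≠ ⊤ ∧
      pdim (monIdeal K A) = ((A.card - 2 : ℕ) : WithBot ℕ∞) ∧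
      spdim (monIdeal K A) = A.card - 3) ∧
    (∃ A : Finset (Fin 9 →₀ ℕ), IsAntichain (· ≤ ·) (A : Set (Fin 9 →₀ ℕ)) ∧
      A.card = 6 ∧ monIdeal K A ≠ ⊥ ∧ monIdeal K A ≠ ⊤ ∧
      pdim (monIdeal K A) = ((A.card - 1 : ℕ) : WithBot ℕ∞) ∧
      spdim (monIdeal K A) = A.card - 2) := by
  constructor
  · intro r
    refine ⟨A1 r, A1_anti, A1_card, ?_, ?_, ?_, ?_⟩
    · intro h
      have h1 : monomial (ind (cs r (Sum.inl (0, 0)))) (1 : K) ∈ monIdeal K (A1 r) := by
        rw [monomial_mem_monIdeal, mem_A1_iff]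
        exact ⟨Sum.inl (0, 0), by rw [support_ind]⟩
      rw [h, Ideal.mem_bot, monomial_eq_zero] at h1
      exact one_ne_zero h1
    · intro h
      have h1 : monomial (0 : Fin (5 + r) →₀ ℕ) (1 : K) ∈ monIdeal K (A1 r) := by
        rw [h]; trivial
      rw [monomial_mem_monIdeal, mem_A1_iff] at h1
      obtain ⟨c, hc⟩ := h1
      rw [Finsupp.support_zero, Finset.subset_empty] at hc
      rcases c with c | l
      · have h2 : (c5 c).map (Fin.castAddEmb r) = ∅ := hc
        rw [Finset.map_eq_empty] at h2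
        exact (by decide : ∀ c, c5 c ≠ ∅) c h2
      · exact Finset.singleton_ne_empty _ hc
    · rw [pdim1, A1_card]
      have : 6 + r - 2 = 4 + r := by omega
      rw [this]
    · rw [spdim, sdepth1, A1_card]
      omega
  · refine ⟨A2, A2_anti, A2_card, ?_, ?_, ?_, ?_⟩
    · intro h
      have h1 : monomial (a2 0) (1 : K) ∈ monIdeal K A2 := by
        rw [monomial_mem_monIdeal]
        exact ⟨a2 0, Finset.mem_map.2 ⟨0, Finset.mem_univ _, rfl⟩, le_rfl⟩
      rw [h, Ideal.mem_bot, monomial_eq_zero] at h1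
      exact one_ne_zero h1
    · intro h
      have h1 : monomial (0 : Fin 9 →₀ ℕ) (1 : K) ∈ monIdeal K A2 := by
        rw [h]; trivial
      rw [monomial_mem_monIdeal, mem_A2_iff] at h1
      obtain ⟨m, hm, h⟩ := h1
      rw [Finsupp.support_zero] at h
      exact (by decide +kernel : ∀ m ∈ lm, ¬ unmask 9 m ⊆ ∅) m hm h
    · rw [pdim2, A2_card]
    · rw [spdim, sdepth2, A2_card]

end Pool.Agent.Results.MP_718c62_al.SpdimNePdim
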